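import Pool.Agent.Y766.R10.Stm

/-!
# The functional equation of the theta function of an even primitive character
-/

set_option autoImplicit false

namespace Pool.Agent.Y161.R10

open Real Complex HurwitzZeta Finset

variable {q : ℕ} [NeZero q]

/-- the terms of the theta function -/
noncomputable def tm (χ : DirichletCharacter ℂ q) (t : ℝ) (m : ℤ) : ℂ :=
  χ (m : ZMod q) * (Real.exp (-π * (m : ℝ) ^ 2 * t) : ℂ)

lemma summable_exp {t : ℝ} (ht : 0 < t) :
    Summable (fun m : ℤ => Real.exp (-π * (m : ℝ) ^ 2 * t)) := by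
  have h := (hasSum_int_evenKernel 0 ht).summable
  simpa using h

omit [NeZero q] in
lemma summable_tm (χ : DirichletCharacter ℂ q) {t : ℝ} (ht : 0 < t) : Summable (tm χ t) := by
  refine Summable.of_norm_bounded (summable_exp ht) fun m => ?_
  unfold tm
  rw [norm_mul, Complex.norm_real, Real.norm_of_nonneg (Real.exp_pos _).le]
  exact mul_le_of_le_one_left (Real.exp_pos _).le (χ.norm_le_one _)

/-- splitting into residue classes -/
lemma sum_tm (χ : DirichletCharacter ℂ q) {y : ℝ} (hy : 0 < y) :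
    ∑' m : ℤ, tm χ (y / q) m =
      ∑ b : Fin q, χ ((b : ℕ) : ZMod q) * (evenKernel (((b : ℕ) / q : ℝ)) (q * y) : ℂ) := by
  have hq : (0 : ℝ) < q := by exact_mod_cast NeZero.pos q
  have hs : Summable (tm χ (y / q)) := summable_tm χ (by positivity)
  let e : Fin q × ℤ ≃ ℤ := (Equiv.prodComm _ _).trans (Int.divModEquiv q).symm
  have he : ∀ p : Fin q × ℤ, e p = p.2 * q + (p.1 : ℕ) := fun p => rfl
  have hs' : Summable (fun p : Fin q × ℤ => tm χ (y / q) (e p)) := e.summable_iff.2 hs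
  rw [← e.tsum_eq, hs'.tsum_prod, tsum_fintype]
  refine Finset.sum_congr rfl fun b _ => ?_
  have h1 : HasSum (fun n : ℤ => ((Real.exp (-π * (n + ((b : ℕ) / q : ℝ)) ^ 2 * (q * y)) : ℝ) : ℂ))
      (evenKernel (((b : ℕ) / q : ℝ)) (q * y) : ℂ) :=
    (hasSum_ofReal.2 (hasSum_int_evenKernel _ (by positivity)))
  rw [← (h1.mul_left (χ ((b : ℕ) : ZMod q))).tsum_eq]
  refine tsum_congr fun n => ?_
  unfold tm
  rw [he]
  congr 2
  · push_cast
    simp
  · congr 1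
    push_cast
    field_simp

lemma sum_fin (f : ZMod q → ℂ) (g : ℕ → ℂ) (h : ∀ a : ZMod q, g a.val = f a) :
    ∑ b : Fin q, g b = ∑ a : ZMod q, f a := by
  obtain ⟨k, rfl⟩ := Nat.exists_eq_succ_of_ne_zero (NeZero.ne q)
  exact Finset.sum_congr rfl fun b _ => h b

/-- the dual side -/
lemma hasSum_dual (χ : DirichletCharacter ℂ q) (hχ : χ.IsPrimitive) {t : ℝ} (ht : 0 < t) :
    ∑ b : Fin q, χ ((b : ℕ) : ZMod q) * (cosKernel (((b : ℕ) / q : ℝ)) t : ℂ) =
      gaussSum χ ZMod.stdAddChar * ∑' m : ℤ, tm χ⁻¹ t m := by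
  have hq : (q : ℂ) ≠ 0 := by exact_mod_cast NeZero.ne q
  have h1 : HasSum (fun n : ℤ => ∑ b : Fin q, χ ((b : ℕ) : ZMod q) *
      (cexp (2 * π * I * (((b : ℕ) / q : ℝ) : ℂ) * n) * (Real.exp (-π * (n : ℝ) ^ 2 * t) : ℂ)))
      (∑ b : Fin q, χ ((b : ℕ) : ZMod q) * (cosKernel (((b : ℕ) / q : ℝ)) t : ℂ)) := by
    refine hasSum_sum fun b _ => ?_
    exact (hasSum_int_cosKernel _ ht).mul_left _
  rw [← h1.tsum_eq, ← tsum_mul_left]
  refine tsum_congr fun n => ?_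
  have h2 : ∑ b : Fin q, χ ((b : ℕ) : ZMod q) * cexp (2 * π * I * (((b : ℕ) / q : ℝ) : ℂ) * n) =
      gaussSum χ ((ZMod.stdAddChar (N := q)).mulShift (n : ZMod q)) := by
    unfold gaussSum
    refine sum_fin (fun a => χ a * ((ZMod.stdAddChar (N := q)).mulShift (n : ZMod q)) a)
      (fun b => χ (b : ZMod q) * cexp (2 * π * I * ((b / q : ℝ) : ℂ) * n)) fun a => ?_

    rw [AddChar.mulShift_apply, ZMod.natCast_zmod_val]
    have h4 : (n : ZMod q) * a = ((n * (a.val : ℤ) : ℤ) : ZMod q) := by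
      push_cast
      rw [ZMod.natCast_zmod_val]
    rw [h4, ZMod.stdAddChar_coe]
    congr 2
    push_cast
    field_simp
  have h5 := gaussSum_mulShift_of_isPrimitive (ZMod.stdAddChar (N := q)) hχ (n : ZMod q)
  unfold tm
  rw [← mul_assoc, mul_comm (gaussSum χ _), ← h5, ← h2, Finset.sum_mul]
  exact Finset.sum_congr rfl fun b _ => by ring

/-- folding -/
lemma fold (χ : DirichletCharacter ℂ q) (hq : 1 < q) (he : χ.Even) {t : ℝ} (ht : 0 < t) :
    ∑' m : ℤ, tm χ t m =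
      2 * ∑' n : ℕ, χ ((n + 1 : ℕ) : ZMod q) * (Real.exp (-π * ((n : ℝ) + 1) ^ 2 * t) : ℂ) := by
  have hs := summable_tm χ ht
  have h0 : tm χ t 0 = 0 := by
    unfold tm
    have : Fact (1 < q) := ⟨hq⟩
    rw [Int.cast_zero, MulChar.map_zero, zero_mul]
  have hneg : ∀ m : ℤ, tm χ t (-m) = tm χ t m := by
    intro m
    unfold tm
    rw [Int.cast_neg, he.eval_neg, Int.cast_neg, neg_sq]
  have h1 : Summable (fun n : ℕ => tm χ t (n : ℤ)) :=
    hs.comp_injective Nat.cast_injective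
  have h2 : Summable (fun n : ℕ => tm χ t (-((n : ℤ) + 1))) :=
    hs.comp_injective (i := fun n : ℕ => -((n : ℤ) + 1)) (fun a b hab => by
      simp only [neg_inj, add_left_inj, Nat.cast_inj] at hab
      exact hab)
  rw [tsum_of_nat_of_neg_add_one h1 h2, h1.tsum_eq_zero_add]
  rw [Nat.cast_zero, h0, zero_add, two_mul]
  congr 1
  · refine tsum_congr fun n => ?_
    unfold tm
    push_cast
    rfl
  · refine tsum_congr fun n => ?_
    rw [hneg]
    unfold tm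
    push_cast
    rfl

theorem the : Pool.Agent.Y766.R10.S_THE := by
  intro q _ hq χ hχ he x hx
  have hq0 : (0 : ℝ) < q := by exact_mod_cast NeZero.pos q
  have hx' : 0 < x⁻¹ := inv_pos.2 hx
  have h1 := sum_tm χ hx'
  have h2 := hasSum_dual χ hχ (t := 1 / (q * x⁻¹)) (by positivity)
  have h3 : ∑ b : Fin q, χ ((b : ℕ) : ZMod q) * (evenKernel (((b : ℕ) / q : ℝ)) (q * x⁻¹) : ℂ) =
      ((1 / (q * x⁻¹) ^ (1 / 2 : ℝ) : ℝ) : ℂ) *
        ∑ b : Fin q, χ ((b : ℕ) : ZMod q) * (cosKernel (((b : ℕ) / q : ℝ)) (1 / (q * x⁻¹)) : ℂ) := by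
    rw [Finset.mul_sum]
    refine Finset.sum_congr rfl fun b _ => ?_
    rw [evenKernel_functional_equation]
    push_cast
    ring
  rw [h3, h2] at h1
  have he' : (χ⁻¹).Even := by
    unfold DirichletCharacter.Even
    rw [MulChar.inv_apply_eq_inv', he]
    simp
  rw [fold χ hq he (by positivity), fold χ⁻¹ hq he' (by positivity)] at h1
  have h4 : ∀ n : ℕ, χ ((n + 1 : ℕ) : ZMod q) *
      (Real.exp (-Real.pi * ((n : ℝ) + 1) ^ 2 / (x * q)) : ℂ) =
      χ ((n + 1 : ℕ) : ZMod q) * (Real.exp (-π * ((n : ℝ) + 1) ^ 2 * (x⁻¹ / q)) : ℂ) := by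
    intro n
    congr 3
    field_simp
  have h5 : ∀ n : ℕ, (starRingEnd ℂ) (χ ((n + 1 : ℕ) : ZMod q)) *
      (Real.exp (-Real.pi * ((n : ℝ) + 1) ^ 2 * x / q) : ℂ) =
      χ⁻¹ ((n + 1 : ℕ) : ZMod q) * (Real.exp (-π * ((n : ℝ) + 1) ^ 2 * (1 / (q * x⁻¹))) : ℂ) := by
    intro n
    have h6 : (starRingEnd ℂ) (χ ((n + 1 : ℕ) : ZMod q)) = χ⁻¹ ((n + 1 : ℕ) : ZMod q) :=
      MulChar.star_apply' χ _
    rw [h6]
    congr 3
    field_simp
  rw [tsum_congr h4, tsum_congr h5]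
  have h7 : (1 / (q * x⁻¹) ^ (1 / 2 : ℝ) : ℝ) = Real.sqrt x / Real.sqrt q := by
    rw [← Real.sqrt_eq_rpow, ← div_eq_mul_inv, Real.sqrt_div hq0.le, one_div_div]
  rw [h7] at h1
  have h8 : ∀ A B C : ℂ, 2 * A = C * (gaussSum χ ZMod.stdAddChar * (2 * B)) →
      A = C * gaussSum χ ZMod.stdAddChar * B := by
    intro A B C h
    have h9 : (2 : ℂ) ≠ 0 := two_ne_zero
    have h10 : 2 * A = 2 * (C * gaussSum χ ZMod.stdAddChar * B) := by rw [h]; ring
    exact mul_left_cancel₀ h9 h10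
  rw [h8 _ _ _ h1]
  push_cast
  ring

end Pool.Agent.Y161.R10
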